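import Pool.Agent.Helper37.RX.Main

set_option autoImplicit false

universe u

open Pool.Agent.Helper37.RX

/-- Every rational equivalence relation over a finite alphabet has a regular cross-section;
in particular (C_k) implies (C) for every `k`. -/
theorem Pool.Agent.Results.MP_e43f0d_lc.CrossSection.result :
    StatementC.{u} ∧ ∀ k : ℕ, 2 ≤ k → StatementCk.{u} k → StatementC.{u} :=
  ⟨statementC, fun _ _ _ => statementC⟩
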